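import Pool.Agent.Lib_HM.Base
import Pool.Agent.Lib_Inner.Rich

/-!
# Generic models as `HM`
-/

set_option autoImplicit false

namespace Pool.Agent.HMod

open Forcing Inner Name

universe u

variable {P : Type u} [Preorder P] [OrderTop P]

/-- a name for the set of (codes of) pairs `⟨⟨i, j⟩, Nat.pair i j⟩` -/
noncomputable def pgName : Name P :=
  Name.mk (ULift.{u} (ℕ × ℕ))
    (fun q => opairName (opairName (num q.down.1) (num q.down.2)) (num (Nat.pair q.down.1 q.down.2)))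
    (fun _ => ⊤)

/-- a name for the set of the numbers `n` with some `c ∈ X n` in the generic filter -/
def relName (X : ℕ → Set P) : Name P :=
  Name.mk ((n : ULift.{u} ℕ) × X n.down) (fun q => num q.1.down) (fun q => q.2.1)

/-- the value of `X` along a generic sequence -/
def evR (X : ℕ → Set P) (G : ℕ → P) : Set ℕ := {n | ∃ k, ∃ c ∈ X n, G k ≤ c}

/-- the model `𝔊.M` as an `HM` -/
noncomputable def toHM {𝔊 : Gen P} (h : Rich 𝔊) (hpg : (pgName : Name P) ∈ 𝔊.N) : HM.{u + 1} where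
  M := 𝔊.M
  E := 𝔊.E
  zfc := h.zfc
  nu := h.nu
  om := h.om
  nu_inj := fun _ _ hmn => h.nu_inj.1 hmn
  mem_om := fun _ => h.mem_om
  mem_nu := fun _ _ => h.mem_nu
  pg := 𝔊.cls ⟨pgName, hpg⟩
  mem_pg := by
    have key : ∀ i j : ℕ, ∃ hm : opairName (opairName (num i) (num j)) (num (Nat.pair i j)) ∈ 𝔊.N,
        𝔊.cls ⟨opairName (opairName (num i) (num j)) (num (Nat.pair i j)), hm⟩ =
          pair 𝔊.E (pair 𝔊.E (h.nu i) (h.nu j)) (h.nu (Nat.pair i j)) := by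
      intro i j
      have h1 := h.cls_opairName (x := ⟨num i, h.num_mem i⟩) (y := ⟨num j, h.num_mem j⟩)
      have h2 := h.cls_opairName
        (x := ⟨opairName (num i) (num j), h.opair_mem (h.num_mem i) (h.num_mem j)⟩)
        (y := ⟨num (Nat.pair i j), h.num_mem _⟩)
      refine ⟨_, h2.trans ?_⟩
      have h1' : 𝔊.cls ⟨opairName (num i) (num j), h.opair_mem (h.num_mem i) (h.num_mem j)⟩ =
          pair 𝔊.E (h.nu i) (h.nu j) := h1
      rw [h1']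
      rfl
    intro x
    obtain ⟨x', rfl⟩ := 𝔊.exists_rep x
    constructor
    · intro hx
      obtain ⟨n, j, _, h2⟩ := h.split x'.1 x'.2 _ hpg hx
      obtain ⟨hm, hk⟩ := key j.down.1 j.down.2
      refine ⟨j.down.1, j.down.2, ?_⟩
      rw [← hk]
      exact (𝔊.cls_eq).2 ⟨n, h2⟩
    · rintro ⟨i, j, hx⟩
      obtain ⟨hm, hk⟩ := key i j
      rw [hx, ← hk]
      exact ⟨0, fun q _ => ⟨q, le_rfl, ⟨(i, j)⟩, le_top, feq_refl _ _⟩⟩

private theorem tohm_mem_relName {𝔊 : Gen P} (h : Rich 𝔊) {X : ℕ → Set P}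
    (hX : relName X ∈ 𝔊.N) (x : 𝔊.M) :
    𝔊.E x (𝔊.cls ⟨relName X, hX⟩) ↔ ∃ n ∈ evR X 𝔊.G, x = h.nu n := by
  obtain ⟨x', rfl⟩ := 𝔊.exists_rep x
  constructor
  · intro hx
    obtain ⟨n, j, h1, h2⟩ := h.split x'.1 x'.2 _ hX hx
    exact ⟨j.1.down, ⟨n, j.2.1, j.2.2, h1⟩, (𝔊.cls_eq).2 ⟨n, h2⟩⟩
  · rintro ⟨n, ⟨k, c, hc, hk⟩, hx⟩
    rw [hx]
    exact ⟨k, fun q hq => ⟨q, le_rfl, ⟨⟨n⟩, ⟨c, hc⟩⟩, hq.trans hk, feq_refl _ _⟩⟩

/-- the evaluation of a name of the list is in the model -/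
theorem evR_mem {𝔊 : Gen P} (h : Rich 𝔊) (hpg : (pgName : Name P) ∈ 𝔊.N) {X : ℕ → Set P}
    (hX : relName X ∈ 𝔊.N) : evR X 𝔊.G ∈ real (toHM h hpg) := by
  refine ⟨⟨𝔊.cls ⟨relName X, hX⟩, fun a => ?_⟩⟩
  have h1 := tohm_mem_relName h hX (h.nu a)
  refine Iff.trans h1 ?_
  constructor
  · rintro ⟨n, hn, h2⟩
    rw [h.nu_inj] at h2
    rw [h2]
    exact hn
  · intro ha
    exact ⟨a, ha, rfl⟩

/-- more precisely -/
theorem mem_relName {𝔊 : Gen P} (h : Rich 𝔊) {X : ℕ → Set P} (hX : relName X ∈ 𝔊.N) (x : 𝔊.M) :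
    𝔊.E x (𝔊.cls ⟨relName X, hX⟩) ↔ ∃ n ∈ evR X 𝔊.G, x = h.nu n :=
  tohm_mem_relName h hX x

/-- a set of the ground model: `X n = {⊤}` or `∅` -/
theorem ground_mem {𝔊 : Gen P} (h : Rich 𝔊) (hpg : (pgName : Name P) ∈ 𝔊.N) {S : Set ℕ}
    (hS : relName (P := P) (fun n => {c | n ∈ S}) ∈ 𝔊.N) : S ∈ real (toHM h hpg) := by
  have h1 := evR_mem h hpg hS
  have h2 : evR (fun n => {c : P | n ∈ S}) 𝔊.G = S := by
    ext n
    constructor
    · rintro ⟨k, c, hc, _⟩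
      exact hc
    · intro hn
      exact ⟨0, 𝔊.G 0, hn, le_rfl⟩
  rw [h2] at h1
  exact h1

/-- club-many models: statements that hold for club-many models hold for all generic models with
suitable names -/
theorem club_gen {T : HM.{u + 1} → Prop} (hT : ∀ᶠ 𝔐 in Club.{u + 1}, T 𝔐) :
    ∃ S : Set (Name P), S.Countable ∧ ∀ (𝔊 : Gen P) (h : Rich 𝔊) (hpg : (pgName : Name P) ∈ 𝔊.N),
      S ⊆ 𝔊.N → T (toHM h hpg) := by
  obtain ⟨𝓕, h1, h2⟩ := eventually_Club.1 hT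
  refine ⟨(fun F : Set ℕ => relName (P := P) (fun n => {c | n ∈ F})) '' 𝓕, h1.image _, ?_⟩
  intro 𝔊 h hpg hS
  refine h2 _ fun F hF => ?_
  exact ground_mem h hpg (hS ⟨F, hF, rfl⟩)

private theorem tohm_isNum_nu (𝔐 : HM.{u}) (n : ℕ) (x : 𝔐.M) : IsNum 𝔐.E n x ↔ x = 𝔐.nu n := by
  induction n generalizing x with
  | zero =>
    have h0 : ∀ z, ¬ 𝔐.E z (𝔐.nu 0) := by
      intro z hz
      obtain ⟨m, hm, _⟩ := (𝔐.mem_nu z 0).1 hz
      omega
    constructor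
    · intro h
      exact ext 𝔐.zfc fun z => ⟨fun hz => absurd hz (h z), fun hz => absurd hz (h0 z)⟩
    · rintro rfl
      exact h0
  | succ n ih =>
    have hs : ∀ z, 𝔐.E z (𝔐.nu (n + 1)) ↔ 𝔐.E z (𝔐.nu n) ∨ z = 𝔐.nu n := by
      intro z
      rw [𝔐.mem_nu, 𝔐.mem_nu]
      constructor
      · rintro ⟨m, hm, h⟩
        rcases Nat.lt_succ_iff_lt_or_eq.1 hm with h1 | h1
        · exact Or.inl ⟨m, h1, h⟩
        · subst h1
          exact Or.inr h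
      · rintro (⟨m, hm, h⟩ | h)
        · exact ⟨m, by omega, h⟩
        · exact ⟨n, by omega, h⟩
    constructor
    · rintro ⟨y, hy, h⟩
      have hy' := (ih y).1 hy
      subst hy'
      exact ext 𝔐.zfc fun z => by rw [h, hs]
    · rintro rfl
      exact ⟨_, (ih _).2 rfl, hs⟩

/-- the model is an ω-model in the sense of `OmegaModel` -/
theorem omegaModel (𝔐 : HM.{u}) : OmegaModel 𝔐.E := by
  refine ⟨𝔐.om, fun x => ?_⟩
  rw [𝔐.mem_om]
  exact exists_congr fun n => (tohm_isNum_nu 𝔐 n x).symm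

theorem isNum_nu (𝔐 : HM.{u}) (n : ℕ) (x : 𝔐.M) : IsNum 𝔐.E n x ↔ x = 𝔐.nu n :=
  tohm_isNum_nu 𝔐 n x

end Pool.Agent.HMod
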