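import Pool.Agent.Lib_HM.Base

/-!
# Internal filters
-/

set_option autoImplicit false

namespace Pool.Agent.HMod

universe w

variable {𝔐 : HM.{w}} {α β : Type*} [Cod 𝔐 α] [Cod 𝔐 β]

/-- an internal filter on a coded type: a (Lean) filter generated by internal sets such that the
collection of its internal elements is internal -/
structure IsIFil (𝔐 : HM.{w}) {α : Type*} [Cod 𝔐 α] (F : Filter α) : Prop where
  gen : ∀ S ∈ F, ∃ T ∈ F, Int 𝔐 (fun a => a ∈ T) ∧ T ⊆ S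
  def' : Int 𝔐 (fun S : ISet 𝔐 α => S.1 ∈ F)

/-- the quantifier `∀ᶠ x in F` preserves internality (for internal families) -/
theorem int_eventually {F : Filter β} (hF : IsIFil 𝔐 F) {R : α → β → Prop}
    (h : Int 𝔐 (fun q : α × β => R q.1 q.2)) : Int 𝔐 (fun a => ∀ᶠ b in F, R a b) :=
  int_comp (p := fun S : ISet 𝔐 β => S.1 ∈ F) (f := mkS h) hF.def' (intF_mkS h)

/-- an internal collection of internal sets, closed under finite intersections and internal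
supersets, generates an internal filter with the same internal elements -/
theorem exists_IFil (𝒰 : ISet 𝔐 (ISet 𝔐 α)) (h0 : ∃ S, S ∈ 𝒰.1)
    (h1 : ∀ S ∈ 𝒰.1, ∀ T ∈ 𝒰.1, ∃ R ∈ 𝒰.1, R.1 = S.1 ∩ T.1)
    (h2 : ∀ S ∈ 𝒰.1, ∀ T : ISet 𝔐 α, S.1 ⊆ T.1 → T ∈ 𝒰.1) :
    ∃ F : Filter α, IsIFil 𝔐 F ∧ ∀ S : ISet 𝔐 α, S.1 ∈ F ↔ S ∈ 𝒰.1 := by
  let F : Filter α :=
    { sets := {X | ∃ S ∈ 𝒰.1, S.1 ⊆ X}
      univ_sets := by
        obtain ⟨S, hS⟩ := h0
        exact ⟨S, hS, Set.subset_univ _⟩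
      sets_of_superset := by
        rintro X Y ⟨S, hS, hX⟩ hXY
        exact ⟨S, hS, hX.trans hXY⟩
      inter_sets := by
        rintro X Y ⟨S, hS, hX⟩ ⟨T, hT, hY⟩
        obtain ⟨R, hR, hRe⟩ := h1 S hS T hT
        refine ⟨R, hR, ?_⟩
        rw [hRe]
        exact Set.inter_subset_inter hX hY }
  have hF : ∀ X : Set α, X ∈ F ↔ ∃ S ∈ 𝒰.1, S.1 ⊆ X := fun X => Iff.rfl
  have hF' : ∀ S : ISet 𝔐 α, S.1 ∈ F ↔ S ∈ 𝒰.1 := by
    intro S
    rw [hF]
    constructor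
    · rintro ⟨T, hT, hTS⟩
      exact h2 T hT S hTS
    · intro hS
      exact ⟨S, hS, subset_rfl⟩
  refine ⟨F, ⟨?_, ?_⟩, hF'⟩
  · intro X hX
    obtain ⟨S, hS, hSX⟩ := (hF X).1 hX
    exact ⟨S.1, (hF' S).2 hS, S.2, hSX⟩
  · exact int_congr (fun S => (hF' S).symm) 𝒰.2

/-- two internal filters with the same internal elements are equal -/
theorem IsIFil.ext' {F G : Filter α} (hF : IsIFil 𝔐 F) (hG : IsIFil 𝔐 G)
    (h : ∀ S : ISet 𝔐 α, S.1 ∈ F ↔ S.1 ∈ G) : F = G := by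
  ext X
  constructor
  · intro hX
    obtain ⟨T, hT, hi, hTX⟩ := hF.gen X hX
    exact Filter.mem_of_superset ((h ⟨T, hi⟩).1 hT) hTX
  · intro hX
    obtain ⟨T, hT, hi, hTX⟩ := hG.gen X hX
    exact Filter.mem_of_superset ((h ⟨T, hi⟩).2 hT) hTX

/-- images -/
theorem IsIFil.map {F : Filter α} (hF : IsIFil 𝔐 F) {f : α → β} (hf : IntF 𝔐 f)
    (hsurj : ∀ S : ISet 𝔐 α, S.1 ∈ F → ∃ T : ISet 𝔐 β, T.1 = f '' S.1) :
    IsIFil 𝔐 (F.map f) := by
  refine ⟨fun S hS => ?_, ?_⟩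
  · obtain ⟨T, hT, hi, hTS⟩ := hF.gen (f ⁻¹' S) hS
    obtain ⟨T', hT'⟩ := hsurj ⟨T, hi⟩ hT
    refine ⟨T'.1, ?_, T'.2, ?_⟩
    · rw [hT']
      exact Filter.mem_map.2 (Filter.mem_of_superset hT (Set.subset_preimage_image f T))
    · rw [hT']
      exact Set.image_subset_iff.2 hTS
  · exact int_eventually (α := ISet 𝔐 β) (β := α) hF (R := fun S a => f a ∈ S.1)
      (int_memF (f := fun q : ISet 𝔐 β × α => f q.2) (S := fun q => q.1)
        (intF_comp hf intF_snd) intF_fst)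

/-- countable intersections of internal families of sets of the filter, finite form: for an internal
family `R` and a finite set of indices given by a natural number -/
theorem iFil_biInter {F : Filter α} {R : ℕ → α → Prop}
    (h : ∀ n, ∀ᶠ a in F, R n a) (N : ℕ) : ∀ᶠ a in F, ∀ n < N, R n a :=
  (Filter.eventually_all_finite (Set.finite_lt_nat N)).2 (fun n _ => h n)

end Pool.Agent.HMod
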