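import Pool.Agent.Lib_HM.Choice

/-!
# Base types and the club filter

A base type is a countable type with a fixed bijection with `ℕ`; its elements are coded by numerals.
Products of base types are base-like. Every fixed relation between base-like types is internal in club-many
models: `∀ᶠ 𝔐 in Club, Int 𝔐 p`.
-/

set_option autoImplicit false

namespace Pool.Agent.HMod

open Forcing Inner

universe w

/-- base types: countably infinite, with a fixed enumeration -/
class BT (α : Type) where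
  enc : α ≃ ℕ

noncomputable instance : BT (Finset ℕ) where
  enc := (nonempty_equiv_of_countable (α := Finset ℕ) (β := ℕ)).some

noncomputable instance : BT (Finset (Finset ℕ)) where
  enc := (nonempty_equiv_of_countable (α := Finset (Finset ℕ)) (β := ℕ)).some

noncomputable instance : BT (Finset (Finset ℕ × Finset ℕ)) where
  enc := (nonempty_equiv_of_countable (α := Finset (Finset ℕ × Finset ℕ)) (β := ℕ)).some

noncomputable instance : BT (List (Finset ℕ)) where
  enc := (nonempty_equiv_of_countable (α := List (Finset ℕ)) (β := ℕ)).some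

noncomputable instance : BT ℤ where
  enc := (nonempty_equiv_of_countable (α := ℤ) (β := ℕ)).some

variable {𝔐 : HM.{w}}

/-- the coding of a base type (not for `ℕ`, which has its own instance) -/
@[reducible] noncomputable def codBT (α : Type) [BT α] : Cod 𝔐 α where
  c a := 𝔐.nu (BT.enc a)
  inj := fun _ _ h => BT.enc.injective (𝔐.nu_inj h)
  dom := 𝔐.om
  mem_dom := by
    intro x
    rw [𝔐.mem_om]
    constructor
    · rintro ⟨n, rfl⟩; exact ⟨BT.enc.symm n, by rw [Equiv.apply_symm_apply]⟩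
    · rintro ⟨a, rfl⟩; exact ⟨_, rfl⟩

noncomputable instance : Cod 𝔐 (Finset ℕ) := codBT _
noncomputable instance : Cod 𝔐 (Finset (Finset ℕ)) := codBT _
noncomputable instance : Cod 𝔐 (Finset (Finset ℕ × Finset ℕ)) := codBT _
noncomputable instance : Cod 𝔐 (List (Finset ℕ)) := codBT _
noncomputable instance : Cod 𝔐 ℤ := codBT _

/-- `Bool` is coded by `0`, `1` -/
noncomputable instance : Cod 𝔐 Bool where
  c b := 𝔐.nu (if b then 1 else 0)
  inj := by
    intro b b' h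
    have h' := 𝔐.nu_inj h
    cases b <;> cases b' <;> first | rfl | (simp at h')
  dom := (int_of_finite (𝔐 := 𝔐) (α := ℕ) (p := fun n => n < 2)
    (Set.finite_lt_nat 2)).exact.choose
  mem_dom := by
    intro x
    rw [(int_of_finite (𝔐 := 𝔐) (α := ℕ) (p := fun n => n < 2)
      (Set.finite_lt_nat 2)).exact.choose_spec x]
    constructor
    · rintro ⟨n, rfl, hn⟩
      have hn' : n = 0 ∨ n = 1 := by omega
      rcases hn' with rfl | rfl
      · exact ⟨false, rfl⟩
      · exact ⟨true, rfl⟩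
    · rintro ⟨b, rfl⟩
      cases b
      · exact ⟨0, rfl, by omega⟩
      · exact ⟨1, rfl, by omega⟩

/-- base-like types: there is an injective map to `ℕ`, the same for all models, which is
internal -/
class BL (α : Type) [∀ 𝔐 : HM.{w}, Cod 𝔐 α] where
  code : α → ℕ
  inj : Function.Injective code
  int : ∀ 𝔐 : HM.{w}, IntF 𝔐 code

noncomputable instance : BL.{w} ℕ := ⟨id, Function.injective_id, fun _ => intF_id⟩

/-- the enumeration of a base type is internal: its graph is the graph of the identity of `ℕ` -/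
theorem intF_enc (𝔐 : HM.{w}) (α : Type) [BT α] :
    letI : Cod 𝔐 α := codBT α; IntF 𝔐 (fun a : α => (BT.enc a : ℕ)) := by
  letI : Cod 𝔐 α := codBT α
  obtain ⟨⟨s, hs⟩⟩ := int_eq (𝔐 := 𝔐) (α := ℕ)
  refine ⟨⟨⟨s, ?_⟩⟩⟩
  rintro ⟨a, n⟩
  exact hs (BT.enc a, n)

noncomputable instance : BL.{w} (Finset ℕ) where
  code := BT.enc
  inj := BT.enc.injective
  int := fun 𝔐 => intF_enc 𝔐 _

noncomputable instance : BL.{w} (Finset (Finset ℕ)) where
  code := BT.enc
  inj := BT.enc.injective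
  int := fun 𝔐 => intF_enc 𝔐 _

noncomputable instance : BL.{w} (Finset (Finset ℕ × Finset ℕ)) where
  code := BT.enc
  inj := BT.enc.injective
  int := fun 𝔐 => intF_enc 𝔐 _

noncomputable instance : BL.{w} (List (Finset ℕ)) where
  code := BT.enc
  inj := BT.enc.injective
  int := fun 𝔐 => intF_enc 𝔐 _

noncomputable instance : BL.{w} ℤ where
  code := BT.enc
  inj := BT.enc.injective
  int := fun 𝔐 => intF_enc 𝔐 _

noncomputable instance : BL.{w} Bool where
  code b := if b then 1 else 0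
  inj := by
    intro b b' h
    cases b <;> cases b' <;> first | rfl | (simp at h)
  int := by
    intro 𝔐
    obtain ⟨⟨s, hs⟩⟩ := int_eq (𝔐 := 𝔐) (α := ℕ)
    refine ⟨⟨⟨s, ?_⟩⟩⟩
    rintro ⟨b, n⟩
    exact hs (if b then 1 else 0, n)

/-- by `intF_natPair` -/
noncomputable instance {α β : Type} [∀ 𝔐 : HM.{w}, Cod 𝔐 α] [∀ 𝔐 : HM.{w}, Cod 𝔐 β] [BL.{w} α] [BL.{w} β] :
    BL.{w} (α × β) where
  code q := Nat.pair (BL.code.{w} q.1) (BL.code.{w} q.2)
  inj := by
    rintro ⟨a, b⟩ ⟨a', b'⟩ h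
    have h' := Nat.pair_eq_pair.1 h
    exact Prod.ext (BL.inj h'.1) (BL.inj h'.2)
  int := by
    intro 𝔐
    exact intF_comp2 (F := fun m n => Nat.pair m n) intF_natPair
      (intF_comp (BL.int 𝔐) intF_fst) (intF_comp (BL.int 𝔐) intF_snd)

/-- the sets of natural numbers of the model -/
def real (𝔐 : HM.{w}) : Set (Set ℕ) := {S | Int 𝔐 (fun n : ℕ => n ∈ S)}

/-- the models that contain the sets of a given countable family: a countably complete filter -/
def Club : Filter HM.{w} where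
  sets := {T | ∃ 𝓕 : Set (Set ℕ), 𝓕.Countable ∧ ∀ 𝔐 : HM.{w}, 𝓕 ⊆ real 𝔐 → 𝔐 ∈ T}
  univ_sets := ⟨∅, Set.countable_empty, fun _ _ => trivial⟩
  sets_of_superset := by
    rintro S T ⟨𝓕, h1, h2⟩ hST
    exact ⟨𝓕, h1, fun 𝔐 h => hST (h2 𝔐 h)⟩
  inter_sets := by
    rintro S T ⟨𝓕, h1, h2⟩ ⟨𝓖, h3, h4⟩
    exact ⟨𝓕 ∪ 𝓖, h1.union h3, fun 𝔐 h => ⟨h2 𝔐 (Set.subset_union_left.trans h),
      h4 𝔐 (Set.subset_union_right.trans h)⟩⟩

theorem eventually_Club {T : HM.{w} → Prop} : (∀ᶠ 𝔐 in Club, T 𝔐) ↔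
    ∃ 𝓕 : Set (Set ℕ), 𝓕.Countable ∧ ∀ 𝔐 : HM.{w}, 𝓕 ⊆ real 𝔐 → T 𝔐 := Iff.rfl

instance : CountableInterFilter Club.{w} := by
  refine ⟨fun S hS h => ?_⟩
  have h' : ∀ s : S, ∃ 𝓕 : Set (Set ℕ), 𝓕.Countable ∧ ∀ 𝔐 : HM.{w}, 𝓕 ⊆ real 𝔐 → 𝔐 ∈ s.1 :=
    fun s => h s.1 s.2
  choose 𝓕 h1 h2 using h'
  haveI := hS.to_subtype
  refine ⟨⋃ s, 𝓕 s, Set.countable_iUnion h1, fun 𝔐 h3 => ?_⟩
  intro s hs
  exact h2 ⟨s, hs⟩ 𝔐 ((Set.subset_iUnion 𝓕 ⟨s, hs⟩).trans h3)

/-- every predicate on a base-like type is internal in club-many models: take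
`𝓕 = {code '' {a | p a}}` -/
theorem club_int {α : Type} [∀ 𝔐 : HM.{w}, Cod 𝔐 α] [BL.{w} α] (p : α → Prop) :
    ∀ᶠ 𝔐 in Club.{w}, Int 𝔐 p := by
  refine eventually_Club.2 ⟨{BL.code.{w} '' {a | p a}}, Set.countable_singleton _, fun 𝔐 h => ?_⟩
  have h1 : Int 𝔐 (fun n : ℕ => n ∈ BL.code.{w} '' {a | p a}) := h rfl
  refine int_congr (fun a => ?_) (int_comp h1 (BL.int (α := α) 𝔐))
  exact BL.inj.mem_set_image

theorem club_intF {α β : Type} [∀ 𝔐 : HM.{w}, Cod 𝔐 α] [BL.{w} α] [∀ 𝔐 : HM.{w}, Cod 𝔐 β]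
    [BL.{w} β] (f : α → β) : ∀ᶠ 𝔐 in Club.{w}, IntF 𝔐 f := by
  filter_upwards [club_int.{w} (fun q : α × β => f q.1 = q.2)] with 𝔐 h
  exact ⟨h⟩

end Pool.Agent.HMod
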