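import Pool.Agent.Lib_Inner.Basic

/-!
# Lib_HM: internal sets of an ω-model of ZFC, in typed form

`HM` is an ω-model `(M, E)` of ZFC. A Lean type `α` is CODED (`Cod 𝔐 α`) if its elements are
represented by the elements of a set of the model. A predicate on a coded type is INTERNAL (`Int`) if it
is given by a set of the model, a function between coded types is internal (`IntF`) if its graph is. The
lemmas of this library say that everything definable from internal things is internal. So a proof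
in ordinary Lean mathematics can be repeated inside the model by adding `Int` side conditions.
-/

set_option autoImplicit false

namespace Pool.Agent.HMod

open Forcing Inner

universe w

/-- an ω-model of ZFC, with its numerals and (for convenience) the graph of the pairing function of
the natural numbers -/
structure HM where
  M : Type w
  E : M → M → Prop
  zfc : ModelsZFC E
  nu : ℕ → M
  om : M
  nu_inj : Function.Injective nu
  mem_om : ∀ x, E x om ↔ ∃ n, x = nu n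
  mem_nu : ∀ x n, E x (nu n) ↔ ∃ m < n, x = nu m
  pg : M
  mem_pg : ∀ x, E x pg ↔ ∃ i j, x = pair E (pair E (nu i) (nu j)) (nu (Nat.pair i j))

/-- coded types -/
class Cod (𝔐 : HM.{w}) (α : Type*) where
  c : α → 𝔐.M
  inj : Function.Injective c
  dom : 𝔐.M
  mem_dom : ∀ x, 𝔐.E x dom ↔ ∃ a, x = c a

/-- internal predicates -/
structure Int (𝔐 : HM.{w}) {α : Type*} [Cod 𝔐 α] (p : α → Prop) : Prop where
  out : ∃ s : 𝔐.M, ∀ a, 𝔐.E (Cod.c a) s ↔ p a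

variable {𝔐 : HM.{w}} {α β γ δ : Type*} [Cod 𝔐 α] [Cod 𝔐 β] [Cod 𝔐 γ] [Cod 𝔐 δ]

theorem int_congr {p q : α → Prop} (h : ∀ a, p a ↔ q a) (hp : Int 𝔐 p) : Int 𝔐 q := by
  obtain ⟨⟨s, hs⟩⟩ := hp
  exact ⟨⟨s, fun a => (hs a).trans (h a)⟩⟩

/-- one can take the set included in `dom` -/
theorem Int.exact {p : α → Prop} (hp : Int 𝔐 p) :
    ∃ s : 𝔐.M, ∀ x, 𝔐.E x s ↔ ∃ a, x = Cod.c a ∧ p a := by
  obtain ⟨⟨s, hs⟩⟩ := hp
  obtain ⟨b, hb⟩ := sep 𝔐.zfc (R := fun _ E v => E (v 0) (v 1)) (FO.mem 0 1) (fun _ => s)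
    (Cod.dom (𝔐 := 𝔐) (α := α))
  refine ⟨b, fun x => (hb x).trans ?_⟩
  constructor
  · rintro ⟨h1, h2⟩
    obtain ⟨a, rfl⟩ := (Cod.mem_dom x).1 h1
    exact ⟨a, rfl, (hs a).1 h2⟩
  · rintro ⟨a, rfl, h2⟩
    exact ⟨(Cod.mem_dom _).2 ⟨a, rfl⟩, (hs a).2 h2⟩

/-- separation (`Inner.sep`) from the set `dom` -/
theorem int_of_FO {R : Fam.{w}} (hR : FO R) (v : ℕ → 𝔐.M) {p : α → Prop}
    (h : ∀ a, p a ↔ R 𝔐.M 𝔐.E (cons (Cod.c (𝔐 := 𝔐) a) v)) : Int 𝔐 p := by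
  obtain ⟨b, hb⟩ := sep 𝔐.zfc hR v (Cod.dom (𝔐 := 𝔐) (α := α))
  refine ⟨⟨b, fun a => ?_⟩⟩
  rw [hb, h]
  exact and_iff_right ((Cod.mem_dom _).2 ⟨a, rfl⟩)

@[aesop safe apply]
theorem int_const (P : Prop) : Int 𝔐 (fun _ : α => P) := by
  by_cases h : P
  · exact int_of_FO FO.tru (fun _ => 𝔐.om) (fun _ => ⟨fun _ => trivial, fun _ => h⟩)
  · exact int_of_FO (FO.not FO.tru) (fun _ => 𝔐.om)
      (fun _ => ⟨fun h' => absurd h' h, fun h' => absurd trivial h'⟩)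

@[aesop safe apply]
theorem int_and {p q : α → Prop} (hp : Int 𝔐 p) (hq : Int 𝔐 q) : Int 𝔐 (fun a => p a ∧ q a) := by
  obtain ⟨⟨s, hs⟩⟩ := hp
  obtain ⟨⟨t, ht⟩⟩ := hq
  exact int_of_FO (FO.and (FO.mem 0 1) (FO.mem 0 2)) (cons s (fun _ => t))
    (fun a => (and_congr (hs a) (ht a)).symm)

@[aesop safe apply]
theorem int_or {p q : α → Prop} (hp : Int 𝔐 p) (hq : Int 𝔐 q) : Int 𝔐 (fun a => p a ∨ q a) := by
  obtain ⟨⟨s, hs⟩⟩ := hp
  obtain ⟨⟨t, ht⟩⟩ := hq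
  exact int_of_FO (FO.or (FO.mem 0 1) (FO.mem 0 2)) (cons s (fun _ => t))
    (fun a => (or_congr (hs a) (ht a)).symm)

@[aesop safe apply]
theorem int_not {p : α → Prop} (hp : Int 𝔐 p) : Int 𝔐 (fun a => ¬ p a) := by
  obtain ⟨⟨s, hs⟩⟩ := hp
  exact int_of_FO (FO.not (FO.mem 0 1)) (fun _ => s) (fun a => (not_congr (hs a)).symm)

@[aesop safe apply]
theorem int_imp {p q : α → Prop} (hp : Int 𝔐 p) (hq : Int 𝔐 q) : Int 𝔐 (fun a => p a → q a) := by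
  obtain ⟨⟨s, hs⟩⟩ := hp
  obtain ⟨⟨t, ht⟩⟩ := hq
  exact int_of_FO (FO.imp (FO.mem 0 1) (FO.mem 0 2)) (cons s (fun _ => t))
    (fun a => (imp_congr (hs a) (ht a)).symm)

@[aesop safe apply]
theorem int_iff {p q : α → Prop} (hp : Int 𝔐 p) (hq : Int 𝔐 q) : Int 𝔐 (fun a => (p a ↔ q a)) := by
  obtain ⟨⟨s, hs⟩⟩ := hp
  obtain ⟨⟨t, ht⟩⟩ := hq
  exact int_of_FO (FO.iff (FO.mem 0 1) (FO.mem 0 2)) (cons s (fun _ => t))
    (fun a => (iff_congr (hs a) (ht a)).symm)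

/-! ### products -/

/-- ordered pairs of the model -/
noncomputable instance instCodProd : Cod 𝔐 (α × β) where
  c p := pair 𝔐.E (Cod.c p.1) (Cod.c p.2)
  inj := by
    rintro ⟨a, b⟩ ⟨a', b'⟩ h
    have h' := (pair_inj 𝔐.zfc).1 h
    exact Prod.ext (Cod.inj h'.1) (Cod.inj h'.2)
  dom := (exists_prod 𝔐.zfc (Cod.dom (𝔐 := 𝔐) (α := α)) (Cod.dom (𝔐 := 𝔐) (α := β))).choose
  mem_dom := by
    intro x
    rw [(exists_prod 𝔐.zfc (Cod.dom (𝔐 := 𝔐) (α := α)) (Cod.dom (𝔐 := 𝔐) (α := β))).choose_spec x]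
    constructor
    · rintro ⟨y, z, hy, hz, rfl⟩
      obtain ⟨a, rfl⟩ := (Cod.mem_dom y).1 hy
      obtain ⟨b, rfl⟩ := (Cod.mem_dom z).1 hz
      exact ⟨(a, b), rfl⟩
    · rintro ⟨⟨a, b⟩, rfl⟩
      exact ⟨_, _, (Cod.mem_dom _).2 ⟨a, rfl⟩, (Cod.mem_dom _).2 ⟨b, rfl⟩, rfl⟩

theorem c_prod (p : α × β) : Cod.c (𝔐 := 𝔐) p = pair 𝔐.E (Cod.c p.1) (Cod.c p.2) := rfl

/-- the injection of variables used for pairs -/
def HMB_f : ℕ → ℕ
  | 0 => 0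
  | 1 => 1
  | (k+2) => k+3

theorem HMB_f_inj : Function.Injective HMB_f := by
  intro a b h
  rcases a with _ | _ | a <;> rcases b with _ | _ | b <;> simp only [HMB_f] at h <;> omega

/-- properties of pairs given by first-order properties of the components -/
theorem HMB_int_of_FO2 {R : Fam.{w}} (hR : FO R) (v : ℕ → 𝔐.M) {p : α × β → Prop}
    (h : ∀ a b, p (a, b) ↔ R 𝔐.M 𝔐.E (cons (Cod.c (𝔐 := 𝔐) a) (cons (Cod.c (𝔐 := 𝔐) b) v))) :
    Int 𝔐 p := by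
  have h1 : FO.{w} (fun M E v => ∃ y x, IsPair E (v 0) x y ∧
      R M E (cons x (cons y (fun k => v (k+1))))) := by
    refine FO.ex (R := fun M E y v => ∃ x, IsPair E (v 0) x y ∧
      R M E (cons x (cons y (fun k => v (k+1))))) ?_
    refine FO.ex (R := fun M E x v => IsPair E (v 1) x (v 0) ∧
      R M E (cons x (cons (v 0) (fun k => v (k+2))))) ?_
    refine FO.and (FO.isPair 2 0 1) ?_
    refine FO.congr (FO.comp HMB_f HMB_f_inj hR) (fun M E v => ?_)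
    have : (fun k => v (HMB_f k)) = cons (v 0) (cons (v 1) (fun k => v (k + 3))) := by
      funext k
      rcases k with _ | _ | k <;> rfl
    rw [this]
  refine int_of_FO h1 v ?_
  rintro ⟨a, b⟩
  rw [h]
  constructor
  · intro h2
    exact ⟨Cod.c b, Cod.c a, (isPair_iff 𝔐.zfc).2 rfl, h2⟩
  · rintro ⟨y, x, h2, h3⟩
    have h4 : pair 𝔐.E (Cod.c a) (Cod.c b) = pair 𝔐.E x y := (isPair_iff 𝔐.zfc).1 h2
    obtain ⟨h5, h6⟩ := (pair_inj 𝔐.zfc).1 h4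
    rw [← h5, ← h6] at h3
    exact h3

@[aesop safe apply]
theorem int_all {R : α → β → Prop} (h : Int 𝔐 (fun q : α × β => R q.1 q.2)) :
    Int 𝔐 (fun a => ∀ b, R a b) := by
  obtain ⟨⟨s, hs⟩⟩ := h
  have h1 : FO.{w} (fun _ E v => ∀ y, E y (v 1) → Val E (v 2) (v 0) y) :=
    FO.all (R := fun M E y v => E y (v 1) → Val E (v 2) (v 0) y) (FO.imp (FO.mem 0 2) (FO.val 3 1 0))
  refine int_of_FO h1 (cons (Cod.dom (𝔐 := 𝔐) (α := β)) (fun _ => s)) (fun a => ?_)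
  change (∀ b, R a b) ↔ ∀ y, 𝔐.E y (Cod.dom (𝔐 := 𝔐) (α := β)) → Val 𝔐.E s (Cod.c a) y
  constructor
  · intro h2 y hy
    obtain ⟨b, rfl⟩ := (Cod.mem_dom y).1 hy
    exact (val_iff 𝔐.zfc).2 ((hs (a, b)).2 (h2 b))
  · intro h2 b
    exact (hs (a, b)).1 ((val_iff 𝔐.zfc).1 (h2 _ ((Cod.mem_dom _).2 ⟨b, rfl⟩)))

@[aesop safe apply]
theorem int_ex {R : α → β → Prop} (h : Int 𝔐 (fun q : α × β => R q.1 q.2)) :
    Int 𝔐 (fun a => ∃ b, R a b) := by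
  refine int_congr (fun a => ?_) (int_not (int_all (R := fun a b => ¬ R a b) (int_not h)))
  constructor
  · intro h1
    by_contra h2
    exact h1 (fun b hb => h2 ⟨b, hb⟩)
  · rintro ⟨b, hb⟩ h2
    exact h2 b hb

/-- internal functions: the graph is internal -/
structure IntF (𝔐 : HM.{w}) {α β : Type*} [Cod 𝔐 α] [Cod 𝔐 β] (f : α → β) : Prop where
  graph : Int 𝔐 (fun q : α × β => f q.1 = q.2)

/-- a graph of the model, exactly -/
theorem HMB_graph {f : α → β} (hf : IntF 𝔐 f) :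
    ∃ F : 𝔐.M, ∀ a y, Val 𝔐.E F (Cod.c a) y ↔ y = Cod.c (f a) := by
  obtain ⟨F, hF⟩ := hf.graph.exact
  refine ⟨F, fun a y => ?_⟩
  rw [val_iff 𝔐.zfc, hF]
  constructor
  · rintro ⟨⟨a', b⟩, h1, h2⟩
    obtain ⟨h3, h4⟩ := (pair_inj 𝔐.zfc).1 h1
    have h5 : a = a' := Cod.inj h3
    rw [h4]
    subst h5
    exact congrArg _ h2.symm
  · rintro rfl
    exact ⟨(a, f a), rfl, rfl⟩

theorem int_eq : Int 𝔐 (fun q : α × α => q.1 = q.2) :=
  HMB_int_of_FO2 (FO.eq 0 1) (fun _ => 𝔐.om)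
    (fun _ _ => ⟨fun h => congrArg Cod.c h, fun h => Cod.inj h⟩)

@[aesop safe apply]
theorem intF_id : IntF 𝔐 (fun a : α => a) := ⟨int_eq⟩

@[aesop safe apply]
theorem intF_const (b : β) : IntF 𝔐 (fun _ : α => b) :=
  ⟨HMB_int_of_FO2 (FO.eq 1 2) (fun _ => Cod.c b)
    (fun _ _ => ⟨fun h => (congrArg Cod.c h).symm, fun h => (Cod.inj h).symm⟩)⟩

theorem intF_fst : IntF 𝔐 (fun q : α × β => q.1) := by
  have h1 : FO.{w} (fun _ E v => ∃ y, IsPair E (v 0) (v 1) y) :=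
    FO.ex (R := fun M E y v => IsPair E (v 0) (v 1) y) (FO.isPair 1 2 0)
  refine ⟨HMB_int_of_FO2 h1 (fun _ => 𝔐.om) ?_⟩
  rintro ⟨a, b⟩ a'
  change a = a' ↔ ∃ y, IsPair 𝔐.E (pair 𝔐.E (Cod.c a) (Cod.c b)) (Cod.c a') y
  constructor
  · rintro rfl
    exact ⟨Cod.c b, (isPair_iff 𝔐.zfc).2 rfl⟩
  · rintro ⟨y, hy⟩
    exact Cod.inj ((pair_inj 𝔐.zfc).1 ((isPair_iff 𝔐.zfc).1 hy)).1

theorem intF_snd : IntF 𝔐 (fun q : α × β => q.2) := by
  have h1 : FO.{w} (fun _ E v => ∃ y, IsPair E (v 0) y (v 1)) :=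
    FO.ex (R := fun M E y v => IsPair E (v 0) y (v 1)) (FO.isPair 1 0 2)
  refine ⟨HMB_int_of_FO2 h1 (fun _ => 𝔐.om) ?_⟩
  rintro ⟨a, b⟩ b'
  change b = b' ↔ ∃ y, IsPair 𝔐.E (pair 𝔐.E (Cod.c a) (Cod.c b)) y (Cod.c b')
  constructor
  · rintro rfl
    exact ⟨Cod.c a, (isPair_iff 𝔐.zfc).2 rfl⟩
  · rintro ⟨y, hy⟩
    exact Cod.inj ((pair_inj 𝔐.zfc).1 ((isPair_iff 𝔐.zfc).1 hy)).2

theorem intF_comp {g : β → γ} {f : α → β} (hg : IntF 𝔐 g) (hf : IntF 𝔐 f) :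
    IntF 𝔐 (fun a => g (f a)) := by
  obtain ⟨F, hF⟩ := HMB_graph hf
  obtain ⟨G, hG⟩ := HMB_graph hg
  have h1 : FO.{w} (fun _ E v => ∃ y, Val E (v 2) (v 0) y ∧ Val E (v 3) y (v 1)) :=
    FO.ex (R := fun M E y v => Val E (v 2) (v 0) y ∧ Val E (v 3) y (v 1))
      (FO.and (FO.val 3 1 0) (FO.val 4 0 2))
  refine ⟨HMB_int_of_FO2 h1 (cons F (fun _ => G)) (fun a c => ?_)⟩
  change g (f a) = c ↔ ∃ y, Val 𝔐.E F (Cod.c a) y ∧ Val 𝔐.E G y (Cod.c c)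
  constructor
  · rintro rfl
    exact ⟨Cod.c (f a), (hF a _).2 rfl, (hG _ _).2 rfl⟩
  · rintro ⟨y, h2, h3⟩
    rw [hF] at h2
    subst h2
    rw [hG] at h3
    exact (Cod.inj h3).symm

@[aesop safe apply]
theorem intF_pair {f : α → β} {g : α → γ} (hf : IntF 𝔐 f) (hg : IntF 𝔐 g) :
    IntF 𝔐 (fun a => (f a, g a)) := by
  obtain ⟨F, hF⟩ := HMB_graph hf
  obtain ⟨G, hG⟩ := HMB_graph hg
  have h1 : FO.{w} (fun _ E v => ∃ z y, IsPair E (v 1) y z ∧ Val E (v 2) (v 0) y ∧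
      Val E (v 3) (v 0) z) := by
    refine FO.ex (R := fun M E z v => ∃ y, IsPair E (v 1) y z ∧ Val E (v 2) (v 0) y ∧
      Val E (v 3) (v 0) z) ?_
    exact FO.ex (R := fun M E y v => IsPair E (v 2) y (v 0) ∧ Val E (v 3) (v 1) y ∧
      Val E (v 4) (v 1) (v 0)) (FO.and (FO.isPair 3 0 1) (FO.and (FO.val 4 2 0) (FO.val 5 2 1)))
  refine ⟨HMB_int_of_FO2 h1 (cons F (fun _ => G)) ?_⟩
  rintro a ⟨b, c⟩
  change (f a, g a) = (b, c) ↔ ∃ z y, IsPair 𝔐.E (pair 𝔐.E (Cod.c b) (Cod.c c)) y z ∧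
    Val 𝔐.E F (Cod.c a) y ∧ Val 𝔐.E G (Cod.c a) z
  constructor
  · intro h
    obtain ⟨rfl, rfl⟩ := Prod.mk.inj h
    exact ⟨Cod.c (g a), Cod.c (f a), (isPair_iff 𝔐.zfc).2 rfl, (hF _ _).2 rfl, (hG _ _).2 rfl⟩
  · rintro ⟨z, y, h2, h3, h4⟩
    rw [hF] at h3
    rw [hG] at h4
    subst h3
    subst h4
    obtain ⟨h5, h6⟩ := (pair_inj 𝔐.zfc).1 ((isPair_iff 𝔐.zfc).1 h2)
    exact Prod.ext (Cod.inj h5).symm (Cod.inj h6).symm

/-- in the form used by automation -/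
@[aesop safe apply]
theorem intF_fst' {f : α → β × γ} (hf : IntF 𝔐 f) : IntF 𝔐 (fun a => (f a).1) :=
  intF_comp intF_fst hf

@[aesop safe apply]
theorem intF_snd' {f : α → β × γ} (hf : IntF 𝔐 f) : IntF 𝔐 (fun a => (f a).2) :=
  intF_comp intF_snd hf

/-- substitution -/
theorem int_comp {p : β → Prop} {f : α → β} (hp : Int 𝔐 p) (hf : IntF 𝔐 f) :
    Int 𝔐 (fun a => p (f a)) := by
  obtain ⟨F, hF⟩ := HMB_graph hf
  obtain ⟨⟨s, hs⟩⟩ := hp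
  have h1 : FO.{w} (fun _ E v => ∃ y, Val E (v 1) (v 0) y ∧ E y (v 2)) :=
    FO.ex (R := fun M E y v => Val E (v 1) (v 0) y ∧ E y (v 2)) (FO.and (FO.val 2 1 0) (FO.mem 0 3))
  refine int_of_FO h1 (cons F (fun _ => s)) (fun a => ?_)
  change p (f a) ↔ ∃ y, Val 𝔐.E F (Cod.c a) y ∧ 𝔐.E y s
  constructor
  · intro h2
    exact ⟨Cod.c (f a), (hF _ _).2 rfl, (hs _).2 h2⟩
  · rintro ⟨y, h2, h3⟩
    rw [hF] at h2
    subst h2
    exact (hs _).1 h3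

theorem int_comp2 {R : β → γ → Prop} {f : α → β} {g : α → γ}
    (hR : Int 𝔐 (fun q : β × γ => R q.1 q.2)) (hf : IntF 𝔐 f) (hg : IntF 𝔐 g) :
    Int 𝔐 (fun a => R (f a) (g a)) :=
  int_comp hR (intF_pair hf hg)

theorem int_comp3 {R : β → γ → δ → Prop} {f : α → β} {g : α → γ} {h : α → δ}
    (hR : Int 𝔐 (fun q : β × γ × δ => R q.1 q.2.1 q.2.2)) (hf : IntF 𝔐 f) (hg : IntF 𝔐 g)
    (hh : IntF 𝔐 h) : Int 𝔐 (fun a => R (f a) (g a) (h a)) :=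
  int_comp hR (intF_pair hf (intF_pair hg hh))

theorem intF_comp2 {F : β → γ → δ} {f : α → β} {g : α → γ}
    (hF : IntF 𝔐 (fun q : β × γ => F q.1 q.2)) (hf : IntF 𝔐 f) (hg : IntF 𝔐 g) :
    IntF 𝔐 (fun a => F (f a) (g a)) :=
  intF_comp hF (intF_pair hf hg)

@[aesop safe apply]
theorem int_eqF {f g : α → β} (hf : IntF 𝔐 f) (hg : IntF 𝔐 g) : Int 𝔐 (fun a => f a = g a) :=
  int_comp2 (R := fun b b' => b = b') int_eq hf hg

/-- functions given by an internal graph -/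
theorem intF_of_graph {f : α → β} {R : α → β → Prop} (hR : Int 𝔐 (fun q : α × β => R q.1 q.2))
    (h : ∀ a b, R a b ↔ f a = b) : IntF 𝔐 f :=
  ⟨int_congr (fun q => h q.1 q.2) hR⟩

theorem intF_congr {f g : α → β} (h : ∀ a, f a = g a) (hf : IntF 𝔐 f) : IntF 𝔐 g :=
  ⟨int_congr (fun q => by rw [h q.1]) hf.graph⟩

open Classical in
@[aesop safe apply]
theorem intF_ite {p : α → Prop} {f g : α → β} (hp : Int 𝔐 p) (hf : IntF 𝔐 f) (hg : IntF 𝔐 g) :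
    IntF 𝔐 (fun a => if p a then f a else g a) := by
  have h1 : Int 𝔐 (fun q : α × β => p q.1) := int_comp hp intF_fst
  refine intF_of_graph (R := fun a b => (p a ∧ f a = b) ∨ (¬ p a ∧ g a = b))
    (int_or (int_and h1 hf.graph) (int_and (int_not h1) hg.graph)) (fun a b => ?_)
  by_cases h : p a
  · simp [h]
  · simp [h]

/-- slices -/
theorem Int.slice {R : α → β → Prop} (h : Int 𝔐 (fun q : α × β => R q.1 q.2)) (a : α) :
    Int 𝔐 (R a) :=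
  int_comp h (f := fun b => (a, b)) (intF_pair (intF_const a) intF_id)

theorem Int.slice' {R : α → β → Prop} (h : Int 𝔐 (fun q : α × β => R q.1 q.2)) (b : β) :
    Int 𝔐 (fun a => R a b) :=
  int_comp h (f := fun a => (a, b)) (intF_pair intF_id (intF_const b))

theorem IntF.slice {F : α → β → γ} (h : IntF 𝔐 (fun q : α × β => F q.1 q.2)) (a : α) :
    IntF 𝔐 (F a) :=
  intF_comp h (f := fun b => (a, b)) (intF_pair (intF_const a) intF_id)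

/-- change of variables -/
theorem int_swap {R : α → β → Prop} (h : Int 𝔐 (fun q : α × β => R q.1 q.2)) :
    Int 𝔐 (fun q : β × α => R q.2 q.1) :=
  int_comp h (f := fun q : β × α => (q.2, q.1)) (intF_pair intF_snd intF_fst)

end Pool.Agent.HMod
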