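import Pool.Agent.Lib_HM.Sets
import Mathlib

/-!
# Choice and recursion
-/

set_option autoImplicit false

namespace Pool.Agent.HMod

open Forcing Inner

universe w

variable {𝔐 : HM.{w}} {α β γ δ : Type*} [Cod 𝔐 α] [Cod 𝔐 β] [Cod 𝔐 γ] [Cod 𝔐 δ]

/-- internal choice functions. PROOF. Apply the axiom of choice of the model to the set of the sets
`{a} × {b | R a b}` (a set by replacement), which are nonempty and pairwise disjoint; the choice set is the graph of `f`. -/
theorem int_choice {R : α → β → Prop} (hR : Int 𝔐 (fun q : α × β => R q.1 q.2))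
    (h : ∀ a, ∃ b, R a b) : ∃ f : α → β, IntF 𝔐 f ∧ ∀ a, R a (f a) := by
  obtain ⟨r, hr⟩ := hR.exact
  obtain ⟨X, hX⟩ := repl 𝔐.zfc
    (R := fun M E v => ∀ z, E z (v 1) ↔ (E z (v 2) ∧ ∃ b, IsPair E z (v 0) b))
    (FO.all (FO.iff (FO.mem _ _) (FO.and (FO.mem _ _) (FO.ex (FO.isPair _ _ _)))))
    (fun _ => r) (Cod.dom (𝔐 := 𝔐) (α := α)) (by
      intro x _
      obtain ⟨y, hy⟩ := sep 𝔐.zfc (R := fun M E v => ∃ b, IsPair E (v 0) (v 1) b)
        (FO.ex (FO.isPair _ _ _)) (fun _ => x) r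
      refine ⟨y, fun z => hy z, ?_⟩
      intro y' hy'
      apply ext 𝔐.zfc
      intro z
      have h1 : 𝔐.E z y' ↔ (𝔐.E z r ∧ ∃ b, IsPair 𝔐.E z x b) := hy' z
      have h2 : 𝔐.E z y ↔ (𝔐.E z r ∧ ∃ b, IsPair 𝔐.E z x b) := hy z
      rw [h1, h2])
  have hX' : ∀ y, 𝔐.E y X ↔ ∃ a : α, ∀ z, 𝔐.E z y ↔ ∃ b : β, z = Cod.c (a, b) ∧ R a b := by
    intro y
    rw [hX]
    have key : ∀ (a : α) (z : 𝔐.M), (𝔐.E z r ∧ ∃ b, IsPair 𝔐.E z (Cod.c a) b) ↔
        ∃ b : β, z = Cod.c (a, b) ∧ R a b := by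
      intro a z
      constructor
      · rintro ⟨h1, b, h2⟩
        obtain ⟨q, rfl, h3⟩ := (hr z).1 h1
        rw [isPair_iff 𝔐.zfc, c_prod] at h2
        have h4 := (pair_inj 𝔐.zfc).1 h2
        have h5 : q.1 = a := Cod.inj h4.1
        refine ⟨q.2, ?_, ?_⟩
        · rw [← h5]
        · rw [← h5]
          exact h3
      · rintro ⟨b, rfl, h1⟩
        exact ⟨(hr _).2 ⟨(a, b), rfl, h1⟩, Cod.c b, (isPair_iff 𝔐.zfc).2 rfl⟩
    constructor
    · rintro ⟨x, hx, h1⟩
      obtain ⟨a, rfl⟩ := (Cod.mem_dom x).1 hx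
      refine ⟨a, fun z => ?_⟩
      rw [← key]
      exact h1 z
    · rintro ⟨a, h1⟩
      refine ⟨Cod.c a, (Cod.mem_dom _).2 ⟨a, rfl⟩, fun z => ?_⟩
      have h2 := h1 z
      rw [← key] at h2
      exact h2
  obtain ⟨cc, hcc⟩ := 𝔐.zfc.choice X (by
    intro y hy
    obtain ⟨a, ha⟩ := (hX' y).1 hy
    obtain ⟨b, hb⟩ := h a
    exact ⟨_, (ha _).2 ⟨b, rfl, hb⟩⟩) (by
    intro y y' hy hy' hz
    obtain ⟨a, ha⟩ := (hX' y).1 hy
    obtain ⟨a', ha'⟩ := (hX' y').1 hy'
    obtain ⟨z, hz1, hz2⟩ := hz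
    obtain ⟨b, rfl, _⟩ := (ha z).1 hz1
    obtain ⟨b', h1, _⟩ := (ha' _).1 hz2
    have h2 : (a, b) = (a', b') := Cod.inj h1
    have h3 : a = a' := (Prod.ext_iff.1 h2).1
    apply ext 𝔐.zfc
    intro z
    rw [ha, ha', h3])
  have hex : ∀ a, ∃! b, 𝔐.E (Cod.c (a, b)) cc ∧ R a b := by
    intro a
    obtain ⟨y, hy⟩ : ∃ y, ∀ z, 𝔐.E z y ↔ ∃ b : β, z = Cod.c (a, b) ∧ R a b := by
      obtain ⟨y, hy⟩ := sep 𝔐.zfc (R := fun M E v => ∃ b, IsPair E (v 0) (v 1) b)
        (FO.ex (FO.isPair _ _ _)) (fun _ => Cod.c a) r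
      refine ⟨y, fun z => ?_⟩
      rw [hy]
      constructor
      · rintro ⟨h1, b, h2⟩
        obtain ⟨q, rfl, h3⟩ := (hr z).1 h1
        have h2' : IsPair 𝔐.E (Cod.c q) (Cod.c a) b := h2
        rw [isPair_iff 𝔐.zfc, c_prod] at h2'
        have h4 := (pair_inj 𝔐.zfc).1 h2'
        have h5 : q.1 = a := Cod.inj h4.1
        refine ⟨q.2, ?_, ?_⟩
        · rw [← h5]
        · rw [← h5]
          exact h3
      · rintro ⟨b, rfl, h1⟩
        exact ⟨(hr _).2 ⟨(a, b), rfl, h1⟩, Cod.c b, (isPair_iff 𝔐.zfc).2 rfl⟩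
    obtain ⟨z, ⟨hz1, hz2⟩, hzu⟩ := hcc y ((hX' y).2 ⟨a, hy⟩)
    obtain ⟨b, rfl, hb⟩ := (hy z).1 hz1
    refine ⟨b, ⟨hz2, hb⟩, ?_⟩
    rintro b' ⟨h1, h2⟩
    have h3 := hzu (Cod.c (a, b')) ⟨(hy _).2 ⟨b', rfl, h2⟩, h1⟩
    exact (Prod.ext_iff.1 (Cod.inj h3)).2
  choose f hf hu using hex
  refine ⟨f, ?_, fun a => (hf a).2⟩
  refine intF_of_graph (R := fun a b => 𝔐.E (Cod.c (a, b)) cc ∧ R a b)
    (int_and ⟨⟨cc, fun _ => Iff.rfl⟩⟩ hR) ?_
  intro a b
  constructor
  · intro h1
    exact (hu a b h1).symm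
  · rintro rfl
    exact hf a

/-- a version for partial relations, from `int_choice` for `R a b ∨ ¬ ∃ b, R a b` -/
theorem int_choice' [Nonempty β] {R : α → β → Prop}
    (hR : Int 𝔐 (fun q : α × β => R q.1 q.2)) :
    ∃ f : α → β, IntF 𝔐 f ∧ ∀ a, (∃ b, R a b) → R a (f a) := by
  obtain ⟨f, hf, h⟩ := int_choice (R := fun a b => R a b ∨ ¬ ∃ b, R a b)
    (int_or hR (int_comp (p := fun a => ¬ ∃ b, R a b) (int_not (int_ex hR)) intF_fst)) (by
      intro a
      by_cases h : ∃ b, R a b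
      · obtain ⟨b, hb⟩ := h
        exact ⟨b, Or.inl hb⟩
      · exact ⟨Classical.arbitrary β, Or.inr h⟩)
  exact ⟨f, hf, fun a ha => (h a).resolve_right fun h' => h' ha⟩

/-- the coding of `ℕ` by the numerals -/
instance instCodNat : Cod 𝔐 ℕ where
  c := 𝔐.nu
  inj := 𝔐.nu_inj
  dom := 𝔐.om
  mem_dom := 𝔐.mem_om

theorem c_nat (n : ℕ) : Cod.c (𝔐 := 𝔐) n = 𝔐.nu n := rfl

/-- `m < n` iff `𝔐.E (nu m) (nu n)` -/
theorem int_lt : Int 𝔐 (fun q : ℕ × ℕ => q.1 < q.2) := by
  refine int_congr (fun q => ?_) (int_E (α := ℕ) (β := ℕ))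
  rw [c_nat, c_nat, 𝔐.mem_nu]
  constructor
  · rintro ⟨m, hm, h⟩
    rw [𝔐.nu_inj h]
    exact hm
  · intro h
    exact ⟨_, h, rfl⟩

theorem int_ltF {f g : α → ℕ} (hf : IntF 𝔐 f) (hg : IntF 𝔐 g) : Int 𝔐 (fun a => f a < g a) :=
  int_comp2 (R := fun m n : ℕ => m < n) int_lt hf hg

theorem int_leF {f g : α → ℕ} (hf : IntF 𝔐 f) (hg : IntF 𝔐 g) : Int 𝔐 (fun a => f a ≤ g a) :=
  int_congr (fun _ => not_lt) (int_not (int_ltF hg hf))

theorem intF_succ : IntF 𝔐 (fun n : ℕ => n + 1) := by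
  refine intF_of_graph (R := fun n m : ℕ => ∀ k : ℕ, (k < m ↔ (k < n ∨ k = n))) ?_ ?_
  · refine int_all (int_iff ?_ (int_or ?_ ?_))
    · exact int_ltF (intF_snd' intF_id) (intF_snd' (intF_fst' intF_id))
    · exact int_ltF (intF_snd' intF_id) (intF_fst' (intF_fst' intF_id))
    · exact int_eqF (intF_snd' intF_id) (intF_fst' (intF_fst' intF_id))
  · intro n m
    constructor
    · intro h
      have h1 := (h n).2 (Or.inr rfl)
      by_contra h2
      have h3 : n + 1 < m := by omega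
      have h4 := (h (n + 1)).1 h3
      omega
    · rintro rfl k
      omega

/-- the pairing function, from `𝔐.pg` -/
theorem intF_natPair : IntF 𝔐 (fun q : ℕ × ℕ => Nat.pair q.1 q.2) := by
  refine ⟨⟨𝔐.pg, fun q => ?_⟩⟩
  rw [𝔐.mem_pg]
  constructor
  · rintro ⟨i, j, h⟩
    have h1 : q = ((i, j), Nat.pair i j) := Cod.inj (𝔐 := 𝔐) h
    rw [h1]
  · intro h
    refine ⟨q.1.1, q.1.2, ?_⟩
    rw [h]
    rfl

/-- RECURSION. PROOF. `f n` is characterized by: there is an internal `h : ℕ → α` (an `IFun`) with `h 0 = a₀ x`,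
`h (k+1) = g x k (h k)` for all `k < n` and `h n = y`. (Existence of such `h` by ordinary induction on `n`: change
one value of an internal function, `intF_ite`.) This is an internal relation between `x, n` and `y`
(quantifier over `IFun 𝔐 ℕ α`, `intF_app`). Use `intF_of_graph`. -/
theorem int_rec {a₀ : β → α} {g : β → ℕ → α → α} (h₀ : IntF 𝔐 a₀)
    (hg : IntF 𝔐 (fun q : β × ℕ × α => g q.1 q.2.1 q.2.2)) :
    IntF 𝔐 (fun q : β × ℕ => (Nat.rec (a₀ q.1) (fun n y => g q.1 n y) q.2 : α)) := by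
  refine intF_of_graph (R := fun (q : β × ℕ) (y : α) => ∃ h : IFun 𝔐 ℕ α, h.1 0 = a₀ q.1 ∧
    (∀ k : ℕ, k < q.2 → h.1 (k + 1) = g q.1 k (h.1 k)) ∧ h.1 q.2 = y) ?_ ?_
  · refine int_ex (int_and ?_ (int_and (int_all (int_imp ?_ ?_)) ?_))
    · exact int_eqF (intF_appF (intF_snd' intF_id) (intF_const 0))
        (intF_comp h₀ (intF_fst' (intF_fst' (intF_fst' intF_id))))
    · exact int_ltF (intF_snd' intF_id) (intF_snd' (intF_fst' (intF_fst' (intF_fst' intF_id))))
    · refine int_eqF (intF_appF (intF_snd' (intF_fst' intF_id)) (intF_comp intF_succ (intF_snd' intF_id))) ?_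
      exact intF_comp hg (intF_pair (intF_fst' (intF_fst' (intF_fst' (intF_fst' intF_id))))
        (intF_pair (intF_snd' intF_id)
          (intF_appF (intF_snd' (intF_fst' intF_id)) (intF_snd' intF_id))))
    · exact int_eqF (intF_appF (intF_snd' intF_id) (intF_snd' (intF_fst' (intF_fst' intF_id))))
        (intF_snd' (intF_fst' intF_id))
  · rintro ⟨x, n⟩ y
    constructor
    · rintro ⟨h, h1, h2, h3⟩
      have h4 : ∀ k, k ≤ n → h.1 k = (Nat.rec (a₀ x) (fun n y => g x n y) k : α) := by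
        intro k
        induction k with
        | zero => intro _; exact h1
        | succ k ih =>
          intro hk
          rw [h2 k (by exact hk), ih (by omega)]
      rw [← h3]
      exact (h4 n le_rfl).symm
    · rintro rfl
      have h4 : ∀ n : ℕ, ∃ h : IFun 𝔐 ℕ α, ∀ k, k ≤ n →
          h.1 k = (Nat.rec (a₀ x) (fun n y => g x n y) k : α) := by
        intro n
        induction n with
        | zero =>
          refine ⟨⟨fun _ => a₀ x, intF_const _⟩, ?_⟩
          intro k hk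
          obtain rfl : k = 0 := by omega
          rfl
        | succ n ih =>
          obtain ⟨h, hh⟩ := ih
          classical
          refine ⟨⟨fun k => if k = n + 1 then (Nat.rec (a₀ x) (fun n y => g x n y) (n + 1) : α)
            else h.1 k, ?_⟩, ?_⟩
          · have h5 := intF_ite (𝔐 := 𝔐) (p := fun k : ℕ => k = n + 1)
              (f := fun _ => (Nat.rec (a₀ x) (fun n y => g x n y) (n + 1) : α)) (g := h.1)
              (int_eqF intF_id (intF_const _)) (intF_const _) h.2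
            refine intF_congr (fun k => ?_) h5
            congr
          · intro k hk
            by_cases h6 : k = n + 1
            · subst h6
              simp
            · simp only [h6, if_false]
              exact hh k (by omega)
      obtain ⟨h, hh⟩ := h4 n
      refine ⟨h, hh 0 (Nat.zero_le _), ?_, hh n le_rfl⟩
      intro k hk
      have hk' : k < n := hk
      rw [hh (k + 1) hk', hh k hk'.le]

/-- without parameters -/
theorem int_rec' {a₀ : α} {g : ℕ → α → α} (hg : IntF 𝔐 (fun q : ℕ × α => g q.1 q.2)) :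
    IntF 𝔐 (fun n => (Nat.rec a₀ (fun n y => g n y) n : α)) := by
  have h := int_rec (𝔐 := 𝔐) (β := ℕ) (α := α) (a₀ := fun _ => a₀) (g := fun _ n y => g n y)
    (intF_const _) (intF_comp (g := fun q : ℕ × α => g q.1 q.2) hg (intF_snd' intF_id))
  exact IntF.slice (F := fun (_ : ℕ) (n : ℕ) => (Nat.rec a₀ (fun n y => g n y) n : α)) h 0

/-- in the form: every function satisfying the recursion is internal -/
theorem int_rec_of {f : ℕ → α} {g : ℕ → α → α} (hg : IntF 𝔐 (fun q : ℕ × α => g q.1 q.2))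
    (h : ∀ n, f (n + 1) = g n (f n)) : IntF 𝔐 f := by
  refine intF_congr (fun n => ?_) (int_rec' (a₀ := f 0) hg)
  induction n with
  | zero => rfl
  | succ n ih =>
    rw [h, ← ih]

/-- dependent choice: from `int_choice'` (for the relation on `(ℕ × α) × α`) and `int_rec'` -/
theorem int_dc {p : ℕ → α → Prop} {R : ℕ → α → α → Prop}
    (hp : Int 𝔐 (fun q : ℕ × α => p q.1 q.2))
    (hR : Int 𝔐 (fun q : ℕ × α × α => R q.1 q.2.1 q.2.2)) {a₀ : α} (h₀ : p 0 a₀)
    (h : ∀ n a, p n a → ∃ b, p (n + 1) b ∧ R n a b) :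
    ∃ f : ℕ → α, IntF 𝔐 f ∧ f 0 = a₀ ∧ ∀ n, p n (f n) ∧ R n (f n) (f (n + 1)) := by
  have : Nonempty α := ⟨a₀⟩
  obtain ⟨F, hF, hF'⟩ := int_choice' (𝔐 := 𝔐) (R := fun (q : ℕ × α) (b : α) => p (q.1 + 1) b ∧ R q.1 q.2 b) (by
    refine int_and ?_ ?_
    · exact int_comp2 (R := p) hp (intF_comp intF_succ (intF_fst' (intF_fst' intF_id)))
        (intF_snd' intF_id)
    · exact int_comp3 (R := R) hR (intF_fst' (intF_fst' intF_id)) (intF_snd' (intF_fst' intF_id))
        (intF_snd' intF_id))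
  refine ⟨fun n => (Nat.rec a₀ (fun n y => F (n, y)) n : α),
    int_rec' (g := fun n y => F (n, y)) hF, rfl, ?_⟩
  have h1 : ∀ n : ℕ, p n (Nat.rec a₀ (fun n y => F (n, y)) n : α) := by
    intro n
    induction n with
    | zero => exact h₀
    | succ n ih =>
      obtain ⟨b, hb⟩ := h n _ ih
      exact (hF' (n, (Nat.rec a₀ (fun n y => F (n, y)) n : α)) ⟨b, hb⟩).1
  intro n
  refine ⟨h1 n, ?_⟩
  obtain ⟨b, hb⟩ := h n _ (h1 n)
  exact (hF' (n, (Nat.rec a₀ (fun n y => F (n, y)) n : α)) ⟨b, hb⟩).2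

/-- countable choice -/
theorem int_cc {R : ℕ → β → Prop} (hR : Int 𝔐 (fun q : ℕ × β => R q.1 q.2))
    (h : ∀ n, ∃ b, R n b) : ∃ f : ℕ → β, IntF 𝔐 f ∧ ∀ n, R n (f n) := int_choice hR h

/-- finite modifications: a function which agrees with an internal one except on a finite set -/
theorem intF_of_finite_diff {f g : α → β} (hg : IntF 𝔐 g) {s : Set α} (hs : s.Finite)
    (h : ∀ a, a ∉ s → f a = g a) : IntF 𝔐 f := by
  classical
  induction s, hs using Set.Finite.induction_on generalizing f with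
  | empty => exact intF_congr (fun a => (h a (Set.notMem_empty a)).symm) hg
  | @insert x s hx hs ih =>
    have h1 : IntF 𝔐 (Function.update f x (g x)) := by
      apply ih
      intro a ha
      by_cases hax : a = x
      · subst hax
        simp
      · rw [Function.update_of_ne hax]
        apply h
        rintro (h2 | h2)
        · exact hax h2
        · exact ha h2
    have h2 := intF_ite (𝔐 := 𝔐) (p := fun a : α => a = x) (f := fun _ => f x)
      (g := Function.update f x (g x)) (int_eqF intF_id (intF_const _)) (intF_const _) h1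
    refine intF_congr (fun a => ?_) h2
    by_cases hax : a = x
    · subst hax
      simp
    · simp [hax]

theorem int_of_finite {p : α → Prop} (h : {a | p a}.Finite) : Int 𝔐 p := by
  have h1 : ∀ s : Set α, s.Finite → Int 𝔐 (fun a => a ∈ s) := by
    intro s hs
    induction s, hs using Set.Finite.induction_on with
    | empty => exact int_congr (fun a => Iff.rfl) (int_const False)
    | @insert x s hx hs ih =>
      exact int_congr (fun a => Set.mem_insert_iff.symm)
        (int_or (int_eqF intF_id (intF_const x)) ih)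
  exact int_congr (fun a => Iff.rfl) (h1 _ h)

/-- minimum: `n ↦` the least `m` with `R a m` -/
theorem intF_find {R : α → ℕ → Prop} (hR : Int 𝔐 (fun q : α × ℕ => R q.1 q.2)) :
    IntF 𝔐 (fun a => sInf {m | R a m}) := by
  classical
  refine intF_of_graph (R := fun (a : α) (m : ℕ) => (R a m ∧ ∀ k : ℕ, k < m → ¬ R a k) ∨
    ((∀ k : ℕ, ¬ R a k) ∧ m = 0)) ?_ ?_
  · refine int_or (int_and hR (int_all (int_imp ?_ (int_not ?_)))) (int_and (int_all (int_not ?_)) ?_)
    · exact int_ltF (intF_snd' intF_id) (intF_snd' (intF_fst' intF_id))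
    · exact int_comp2 (R := R) hR (intF_fst' (intF_fst' intF_id)) (intF_snd' intF_id)
    · exact int_comp2 (R := R) hR (intF_fst' (intF_fst' intF_id)) (intF_snd' intF_id)
    · exact int_eqF (intF_snd' intF_id) (intF_const 0)
  · intro a m
    constructor
    · rintro (⟨h1, h2⟩ | ⟨h1, rfl⟩)
      · apply le_antisymm
        · exact Nat.sInf_le h1
        · by_contra h3
          have h3' : sInf {m | R a m} < m := by omega
          exact h2 _ h3' (Nat.sInf_mem (s := {m | R a m}) ⟨m, h1⟩)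
      · have h2 : {m | R a m} = (∅ : Set ℕ) := by
          ext k
          simp [h1 k]
        rw [h2, Nat.sInf_empty]
    · rintro rfl
      by_cases h1 : ∃ k, R a k
      · left
        refine ⟨Nat.sInf_mem (s := {m | R a m}) h1, fun k hk h2 => ?_⟩
        exact absurd (Nat.sInf_le (s := {m | R a m}) h2) (by omega)
      · right
        push Not at h1
        refine ⟨h1, ?_⟩
        have h2 : {m | R a m} = (∅ : Set ℕ) := by
          ext k
          simp [h1 k]
        rw [h2, Nat.sInf_empty]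

end Pool.Agent.HMod
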