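import Pool.Agent.Lib_HM.Basic

/-!
# Internal power sets and function spaces as coded types
-/

set_option autoImplicit false

namespace Pool.Agent.HMod

open Forcing Inner

universe w

variable {𝔐 : HM.{w}} {α β γ δ : Type*} [Cod 𝔐 α] [Cod 𝔐 β] [Cod 𝔐 γ] [Cod 𝔐 δ]

/-! ### auxiliary lemmas -/

theorem Sets_mem_pair {x : 𝔐.M} {y : 𝔐.M} : (∃ a s, IsPair 𝔐.E (pair 𝔐.E x y) a s ∧ 𝔐.E a s) ↔
    𝔐.E x y := by
  constructor
  · rintro ⟨a, s, h1, h2⟩
    have h3 := (pair_inj 𝔐.zfc).1 ((isPair_iff 𝔐.zfc).1 h1)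
    rw [h3.1, h3.2]
    exact h2
  · intro h
    exact ⟨x, y, (isPair_iff 𝔐.zfc).2 rfl, h⟩

/-- the membership relation of the model between two coded types is internal -/
theorem int_E : Int 𝔐 (fun q : α × β => 𝔐.E (Cod.c q.1) (Cod.c q.2)) := by
  refine int_of_FO (R := fun M E v => ∃ a s, IsPair E (v 0) a s ∧ E a s)
    (FO.ex (FO.ex (FO.and (FO.isPair _ _ _) (FO.mem _ _)))) (fun _ => 𝔐.om) ?_
  intro q
  rw [cons_zero, c_prod]
  exact Sets_mem_pair.symm

/-- functions that preserve the codes are internal -/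
theorem intF_of_code {f : α → β} (h : ∀ a, Cod.c (𝔐 := 𝔐) (f a) = Cod.c a) : IntF 𝔐 f := by
  refine ⟨int_of_FO (R := fun M E v => ∃ a, IsPair E (v 0) a a)
    (FO.ex (FO.isPair _ _ _)) (fun _ => 𝔐.om) ?_⟩
  intro q
  rw [cons_zero, c_prod]
  constructor
  · intro h1
    refine ⟨Cod.c q.1, (isPair_iff 𝔐.zfc).2 ?_⟩
    rw [← h1, h]
  · rintro ⟨a, h1⟩
    have h2 := (pair_inj 𝔐.zfc).1 ((isPair_iff 𝔐.zfc).1 h1)
    apply Cod.inj (𝔐 := 𝔐)
    rw [h, h2.1, h2.2]

/-! ### internal subsets -/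

/-- the type of the internal subsets of `α` -/
def ISet (𝔐 : HM.{w}) (α : Type*) [Cod 𝔐 α] := {S : Set α // Int 𝔐 (fun a => a ∈ S)}

instance : Membership α (ISet 𝔐 α) := ⟨fun S a => a ∈ S.1⟩

theorem ISet.mem_iff {S : ISet 𝔐 α} {a : α} : a ∈ S ↔ a ∈ S.1 := Iff.rfl

theorem ISet.ext' {S T : ISet 𝔐 α} (h : ∀ a, a ∈ S.1 ↔ a ∈ T.1) : S = T :=
  Subtype.ext (Set.ext h)

/-- the code of an internal set is the set of the model from `Int.exact`; the domain is the power set
of `dom` -/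
theorem exists_code (S : ISet 𝔐 α) : ∃ s : 𝔐.M, ∀ x, 𝔐.E x s ↔ ∃ a, x = Cod.c a ∧ a ∈ S.1 :=
  S.2.exact

theorem exists_dom_ISet (α : Type*) [Cod 𝔐 α] : ∃ d : 𝔐.M, ∀ x, 𝔐.E x d ↔ ∀ z, 𝔐.E z x →
    ∃ a : α, z = Cod.c a := by
  obtain ⟨p, hp⟩ := 𝔐.zfc.powerset (Cod.dom (𝔐 := 𝔐) (α := α))
  refine ⟨p, fun x => ?_⟩
  rw [hp]
  exact forall_congr' fun z => imp_congr_right fun _ => Cod.mem_dom z

noncomputable instance instCodISet : Cod 𝔐 (ISet 𝔐 α) where
  c S := (exists_code S).choose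
  inj := by
    intro S T h
    have h' : (exists_code S).choose = (exists_code T).choose := h
    have hS := (exists_code S).choose_spec
    have hT := (exists_code T).choose_spec
    apply ISet.ext'
    intro a
    constructor
    · intro ha
      have h1 := (hS (Cod.c a)).2 ⟨a, rfl, ha⟩
      rw [h'] at h1
      obtain ⟨b, hb, hb'⟩ := (hT _).1 h1
      rw [Cod.inj hb]
      exact hb'
    · intro ha
      have h1 := (hT (Cod.c a)).2 ⟨a, rfl, ha⟩
      rw [← h'] at h1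
      obtain ⟨b, hb, hb'⟩ := (hS _).1 h1
      rw [Cod.inj hb]
      exact hb'
  dom := (exists_dom_ISet (𝔐 := 𝔐) α).choose
  mem_dom := by
    intro x
    rw [(exists_dom_ISet (𝔐 := 𝔐) α).choose_spec x]
    constructor
    · intro h
      refine ⟨⟨{a | 𝔐.E (Cod.c a) x}, ⟨⟨x, fun a => Iff.rfl⟩⟩⟩, ?_⟩
      apply ext 𝔐.zfc
      intro z
      rw [(exists_code _).choose_spec z]
      constructor
      · intro hz
        obtain ⟨a, rfl⟩ := h z hz
        exact ⟨a, rfl, hz⟩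
      · rintro ⟨a, rfl, ha⟩
        exact ha
    · rintro ⟨S, rfl⟩ z hz
      obtain ⟨a, h1, _⟩ := ((exists_code S).choose_spec z).1 hz
      exact ⟨a, h1⟩

theorem mem_code (S : ISet 𝔐 α) (x : 𝔐.M) :
    𝔐.E x (Cod.c S) ↔ ∃ a, x = Cod.c a ∧ a ∈ S.1 := (exists_code S).choose_spec x

/-- the membership relation is internal -/
theorem int_mem : Int 𝔐 (fun q : α × ISet 𝔐 α => q.1 ∈ q.2.1) := by
  refine int_congr (fun q => ?_) (int_E (α := α) (β := ISet 𝔐 α))
  rw [mem_code]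
  constructor
  · rintro ⟨a, h1, h2⟩
    rw [Cod.inj h1]
    exact h2
  · intro h
    exact ⟨_, rfl, h⟩

theorem int_memF {f : α → β} {S : α → ISet 𝔐 β} (hf : IntF 𝔐 f) (hS : IntF 𝔐 S) :
    Int 𝔐 (fun a => f a ∈ (S a).1) := int_comp2 (R := fun b (S : ISet 𝔐 β) => b ∈ S.1) int_mem hf hS

/-- for a fixed internal set -/
theorem int_memC {f : α → β} {S : Set β} (hS : Int 𝔐 (fun b => b ∈ S)) (hf : IntF 𝔐 f) :
    Int 𝔐 (fun a => f a ∈ S) := int_comp hS hf

/-- internal families of sets -/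
def mkS {R : α → β → Prop} (h : Int 𝔐 (fun q : α × β => R q.1 q.2)) (a : α) : ISet 𝔐 β :=
  ⟨{b | R a b}, h.slice a⟩

theorem mem_mkS {R : α → β → Prop} (h : Int 𝔐 (fun q : α × β => R q.1 q.2)) (a : α) (b : β) :
    b ∈ (mkS h a).1 ↔ R a b := Iff.rfl

theorem intF_mkS {R : α → β → Prop} (h : Int 𝔐 (fun q : α × β => R q.1 q.2)) :
    IntF 𝔐 (mkS h) := by
  refine intF_of_graph (R := fun a (S : ISet 𝔐 β) => ∀ b, (R a b ↔ b ∈ S.1)) ?_ ?_
  · refine int_all (int_iff ?_ ?_)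
    · exact int_comp2 h (intF_fst' (intF_fst' intF_id)) (intF_snd' intF_id)
    · exact int_memF (intF_snd' intF_id) (intF_snd' (intF_fst' intF_id))
  · intro a S
    constructor
    · intro h1
      exact ISet.ext' h1
    · rintro rfl b
      exact Iff.rfl

/-- a family of internal sets `f : α → ISet β` is internal iff the relation `b ∈ f a` is -/
theorem intF_iff_rel {f : α → ISet 𝔐 β} :
    IntF 𝔐 f ↔ Int 𝔐 (fun q : α × β => q.2 ∈ (f q.1).1) := by
  constructor
  · intro h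
    exact int_memF (intF_snd' intF_id) (intF_comp h (intF_fst' intF_id))
  · intro h
    exact intF_congr (fun a => ISet.ext' fun b => Iff.rfl)
      (intF_mkS (R := fun a b => b ∈ (f a).1) h)

/-! ### internal functions -/

/-- the type of internal functions -/
def IFun (𝔐 : HM.{w}) (α β : Type*) [Cod 𝔐 α] [Cod 𝔐 β] := {f : α → β // IntF 𝔐 f}

theorem IFun.ext' {f g : IFun 𝔐 α β} (h : ∀ a, f.1 a = g.1 a) : f = g :=
  Subtype.ext (funext h)

/-- the graph -/
def IFun.gr (f : IFun 𝔐 α β) : ISet 𝔐 (α × β) := ⟨{q | f.1 q.1 = q.2}, f.2.graph⟩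

theorem IFun.gr_inj : Function.Injective (IFun.gr (𝔐 := 𝔐) (α := α) (β := β)) := by
  intro f g h
  apply IFun.ext'
  intro a
  have h1 : (a, g.1 a) ∈ (IFun.gr f).1 := by
    rw [h]
    exact rfl
  exact h1

theorem exists_dom_IFun (α β : Type*) [Cod 𝔐 α] [Cod 𝔐 β] :
    ∃ d : 𝔐.M, ∀ x, 𝔐.E x d ↔ ∃ f : IFun 𝔐 α β, x = Cod.c f.gr := by
  have h1 : Int 𝔐 (fun G : ISet 𝔐 (α × β) => ∀ a : α, ∃ b : β, (a, b) ∈ G.1 ∧
      ∀ b', (a, b') ∈ G.1 → b' = b) := by
    refine int_all (int_ex (int_and ?_ (int_all (int_imp ?_ ?_))))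
    · exact int_memF (intF_pair (intF_snd' (intF_fst' intF_id)) (intF_snd' intF_id))
        (intF_fst' (intF_fst' intF_id))
    · exact int_memF (intF_pair (intF_snd' (intF_fst' (intF_fst' intF_id))) (intF_snd' intF_id))
        (intF_fst' (intF_fst' (intF_fst' intF_id)))
    · exact int_eqF (intF_snd' intF_id) (intF_snd' (intF_fst' intF_id))
  obtain ⟨d, hd⟩ := h1.exact
  refine ⟨d, fun x => ?_⟩
  rw [hd]
  constructor
  · rintro ⟨G, rfl, hG⟩
    choose f hf hu using hG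
    have hgr : ∀ q : α × β, f q.1 = q.2 ↔ q ∈ G.1 := by
      intro q
      constructor
      · intro h
        have h2 := hf q.1
        rw [h] at h2
        exact h2
      · intro h
        exact (hu q.1 q.2 h).symm
    refine ⟨⟨f, ⟨int_congr (fun q => (hgr q).symm) G.2⟩⟩, ?_⟩
    congr 1
    exact ISet.ext' fun q => (hgr q).symm
  · rintro ⟨f, rfl⟩
    exact ⟨f.gr, rfl, fun a => ⟨f.1 a, rfl, fun b' hb' => Eq.symm hb'⟩⟩

/-- functions are coded by their graphs -/
noncomputable instance instCodIFun : Cod 𝔐 (IFun 𝔐 α β) where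
  c f := Cod.c f.gr
  inj := by
    intro f g h
    exact IFun.gr_inj (Cod.inj h)
  dom := (exists_dom_IFun (𝔐 := 𝔐) α β).choose
  mem_dom := by
    intro x
    exact (exists_dom_IFun (𝔐 := 𝔐) α β).choose_spec x

theorem intF_gr : IntF 𝔐 (fun f : IFun 𝔐 α β => f.gr) := intF_of_code fun _ => rfl

/-- application -/
theorem intF_app : IntF 𝔐 (fun q : IFun 𝔐 α β × α => q.1.1 q.2) := by
  refine intF_of_graph (R := fun (q : IFun 𝔐 α β × α) (b : β) => (q.2, b) ∈ (IFun.gr q.1).1) ?_ ?_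
  · exact int_memF (intF_pair (intF_snd' (intF_fst' intF_id)) (intF_snd' intF_id))
      (intF_comp intF_gr (intF_fst' (intF_fst' intF_id)))
  · intro q b
    exact Iff.rfl

theorem intF_appF {f : γ → IFun 𝔐 α β} {g : γ → α} (hf : IntF 𝔐 f) (hg : IntF 𝔐 g) :
    IntF 𝔐 (fun x => (f x).1 (g x)) :=
  intF_comp (g := fun q : IFun 𝔐 α β × α => q.1.1 q.2) intF_app (intF_pair hf hg)

/-- currying -/
def mkF {F : α → β → γ} (h : IntF 𝔐 (fun q : α × β => F q.1 q.2)) (a : α) : IFun 𝔐 β γ :=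
  ⟨F a, h.slice a⟩

theorem intF_mkF {F : α → β → γ} (h : IntF 𝔐 (fun q : α × β => F q.1 q.2)) : IntF 𝔐 (mkF h) := by
  refine intF_of_graph (R := fun a (f : IFun 𝔐 β γ) => ∀ b, F a b = f.1 b) ?_ ?_
  · refine int_all (int_eqF ?_ ?_)
    · exact intF_comp2 (F := F) h (intF_fst' (intF_fst' intF_id)) (intF_snd' intF_id)
    · exact intF_appF (intF_snd' (intF_fst' intF_id)) (intF_snd' intF_id)
  · intro a f
    constructor
    · intro h1
      exact IFun.ext' h1
    · rintro rfl b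
      exact rfl

/-- a function into a function space is internal iff its uncurried form is -/
theorem intF_iff_uncurry {F : α → IFun 𝔐 β γ} :
    IntF 𝔐 F ↔ IntF 𝔐 (fun q : α × β => (F q.1).1 q.2) := by
  constructor
  · intro h
    exact intF_appF (intF_comp h (intF_fst' intF_id)) (intF_snd' intF_id)
  · intro h
    exact intF_congr (fun a => IFun.ext' fun b => rfl) (intF_mkF (F := fun a b => (F a).1 b) h)

/-! ### subtypes -/

/-- subtypes given by internal predicates (use as a local instance) -/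
@[reducible] noncomputable def codSub {p : α → Prop} (hp : Int 𝔐 p) : Cod 𝔐 {a // p a} where
  c a := Cod.c a.1
  inj := by
    intro a b h
    exact Subtype.ext (Cod.inj h)
  dom := hp.exact.choose
  mem_dom := by
    intro x
    rw [hp.exact.choose_spec x]
    constructor
    · rintro ⟨a, rfl, h⟩; exact ⟨⟨a, h⟩, rfl⟩
    · rintro ⟨a, rfl⟩; exact ⟨a.1, rfl, a.2⟩

theorem intF_val {p : α → Prop} (hp : Int 𝔐 p) :
    letI := codSub hp; IntF 𝔐 (fun a : {a // p a} => a.1) := by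
  letI := codSub hp
  exact intF_of_code fun _ => rfl

theorem intF_sub {p : α → Prop} (hp : Int 𝔐 p) {f : β → {a // p a}}
    (hf : IntF 𝔐 (fun b => (f b).1)) : letI := codSub hp; IntF 𝔐 f := by
  letI := codSub hp
  refine intF_of_graph (R := fun b (s : {a // p a}) => (f b).1 = s.1) ?_ ?_
  · exact int_eqF (intF_comp (g := fun b => (f b).1) hf (intF_fst' intF_id))
      (intF_comp (intF_val hp) (intF_snd' intF_id))
  · intro b s
    exact ⟨fun h => Subtype.ext h, fun h => congrArg Subtype.val h⟩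

theorem int_sub {p : α → Prop} (hp : Int 𝔐 p) {q : α → Prop} (hq : Int 𝔐 q) :
    letI := codSub hp; Int 𝔐 (fun a : {a // p a} => q a.1) := by
  letI := codSub hp
  exact int_comp hq (intF_val hp)

/-- transport of a coding along an equivalence (use as a local instance) -/
@[reducible] def codEquiv (e : δ ≃ α) : Cod 𝔐 δ where
  c d := Cod.c (e d)
  inj := by
    intro a b h
    exact e.injective (Cod.inj h)
  dom := Cod.dom (𝔐 := 𝔐) (α := α)
  mem_dom := by
    intro x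
    rw [Cod.mem_dom]
    constructor
    · rintro ⟨a, rfl⟩; exact ⟨e.symm a, by rw [Equiv.apply_symm_apply]⟩
    · rintro ⟨a, rfl⟩; exact ⟨_, rfl⟩

end Pool.Agent.HMod
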